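import Mathlib

/-!
# Chain complexes of families of finite sets

`bd e c`: the simplicial boundary of the chain `c`, a function on the finite subsets of `V`, with the
signs given by the numbering `e` of the vertices. `Ac e U`: the chain complex with basis the members of
`U`, with all faces outside of `U` discarded, has no homology.
-/

set_option autoImplicit false

namespace Pool.Agent.Q135.CS

open Finset

variable {V R : Type} [Fintype V] [DecidableEq V] [CommRing R]

/-- the sign of the face `τ` of `insert v τ` -/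
def sgn (R : Type) [CommRing R] (e : V → ℕ) (τ : Finset V) (v : V) : R :=
  (-1) ^ ((τ.filter fun w => e w < e v).card)

/-- the boundary of the chain `c` -/
def bd (e : V → ℕ) (c : Finset V → R) (τ : Finset V) : R :=
  ∑ v ∈ univ \ τ, sgn R e τ v * c (insert v τ)

variable {e : V → ℕ}

theorem sgn_sq (τ : Finset V) (v : V) : sgn R e τ v * sgn R e τ v = 1 := by
  unfold sgn
  rw [← pow_add, ← two_mul, pow_mul, neg_one_sq, one_pow]

theorem sgn_insert_lt (τ : Finset V) {v w : V} (hw : w ∉ τ) (h : e w < e v) :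
    sgn R e (insert w τ) v = - sgn R e τ v := by
  unfold sgn
  rw [Finset.filter_insert, if_pos h, Finset.card_insert_of_notMem, pow_succ]
  · ring
  · intro h'
    exact hw (Finset.mem_filter.1 h').1

theorem sgn_insert_not (τ : Finset V) {v w : V} (h : ¬ e w < e v) :
    sgn R e (insert w τ) v = sgn R e τ v := by
  unfold sgn
  rw [Finset.filter_insert, if_neg h]

theorem sgn_comm (he : Function.Injective e) (τ : Finset V) {v w : V} (hv : v ∉ τ) (hw : w ∉ τ)
    (hvw : v ≠ w) : sgn R e τ v * sgn R e (insert v τ) w = - (sgn R e τ w * sgn R e (insert w τ) v) := by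
  rcases lt_trichotomy (e v) (e w) with h | h | h
  · rw [sgn_insert_lt τ hv h, sgn_insert_not τ (by omega)]
    ring
  · exact absurd (he h) hvw
  · rw [sgn_insert_lt τ hw h, sgn_insert_not τ (by omega)]
    ring

theorem bd_sub (c c' : Finset V → R) (τ : Finset V) :
    bd e (fun σ => c σ - c' σ) τ = bd e c τ - bd e c' τ := by
  unfold bd
  rw [← Finset.sum_sub_distrib]
  exact Finset.sum_congr rfl fun v _ => by ring

theorem bd_add (c c' : Finset V → R) (τ : Finset V) :
    bd e (fun σ => c σ + c' σ) τ = bd e c τ + bd e c' τ := by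
  unfold bd
  rw [← Finset.sum_add_distrib]
  exact Finset.sum_congr rfl fun v _ => by ring

theorem bd_congr {c c' : Finset V → R} {τ : Finset V}
    (h : ∀ v, v ∉ τ → c (insert v τ) = c' (insert v τ)) : bd e c τ = bd e c' τ := by
  unfold bd
  refine Finset.sum_congr rfl fun v hv => ?_
  rw [h v (Finset.mem_sdiff.1 hv).2]

theorem bd_zero {c : Finset V → R} {τ : Finset V}
    (h : ∀ v, v ∉ τ → c (insert v τ) = 0) : bd e c τ = 0 := by
  unfold bd
  refine Finset.sum_eq_zero fun v hv => ?_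
  rw [h v (Finset.mem_sdiff.1 hv).2, mul_zero]

theorem bd_bd (he : Function.Injective e) (c : Finset V → R) (τ : Finset V) :
    bd e (bd e c) τ = 0 := by
  classical
  have h1 : bd e (bd e c) τ = ∑ p ∈ (univ \ τ) ×ˢ (univ \ τ),
      if p.1 = p.2 then 0 else
        sgn R e τ p.1 * sgn R e (insert p.1 τ) p.2 * c (insert p.2 (insert p.1 τ)) := by
    unfold bd
    rw [Finset.sum_product]
    refine Finset.sum_congr rfl fun v hv => ?_
    rw [Finset.mul_sum]
    have h2 : univ \ insert v τ = (univ \ τ).filter fun w => ¬ v = w := by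
      ext w
      simp only [Finset.mem_sdiff, Finset.mem_univ, true_and, Finset.mem_insert,
        Finset.mem_filter, not_or]
      exact ⟨fun h => ⟨h.2, fun h3 => h.1 h3.symm⟩, fun h => ⟨fun h3 => h.2 h3.symm, h.1⟩⟩
    rw [h2, Finset.sum_filter]
    refine Finset.sum_congr rfl fun w _ => ?_
    by_cases hvw : v = w
    · rw [if_neg (not_not.2 hvw), if_pos hvw]
    · rw [if_pos hvw, if_neg hvw, mul_assoc]
  rw [h1]
  refine Finset.sum_involution (fun p _ => (p.2, p.1)) ?_ ?_ ?_ ?_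
  · rintro ⟨v, w⟩ hp
    rw [Finset.mem_product, Finset.mem_sdiff, Finset.mem_sdiff] at hp
    by_cases hvw : v = w
    · rw [if_pos hvw, if_pos hvw.symm, add_zero]
    · have hwv : ¬ w = v := fun h => hvw h.symm
      simp only [if_neg hvw, if_neg hwv]
      rw [sgn_comm he τ hp.1.2 hp.2.2 hvw, Finset.insert_comm v w τ]
      ring
  · rintro ⟨v, w⟩ _ h h2
    simp only [Prod.mk.injEq] at h2
    exact h (if_pos h2.1.symm)
  · rintro ⟨v, w⟩ hp
    rw [Finset.mem_product] at hp ⊢
    exact ⟨hp.2, hp.1⟩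
  · rintro ⟨v, w⟩ _
    rfl

/-- no homology -/
def Ac (R : Type) [CommRing R] (e : V → ℕ) (U : Set (Finset V)) : Prop :=
  ∀ c : Finset V → R, (∀ τ, τ ∉ U → c τ = 0) → (∀ τ ∈ U, bd e c τ = 0) →
    ∃ b : Finset V → R, (∀ τ, τ ∉ U → b τ = 0) ∧ ∀ τ ∈ U, bd e b τ = c τ

/-- intervals between members consist of members -/
def Cvx (U : Set (Finset V)) : Prop :=
  ∀ τ ρ σ : Finset V, τ ⊆ ρ → ρ ⊆ σ → τ ∈ U → σ ∈ U → ρ ∈ U

open Classical in
/-- restriction of a chain -/
noncomputable def cut (U : Set (Finset V)) (c : Finset V → R) : Finset V → R :=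
  fun τ => if τ ∈ U then c τ else 0

theorem cut_of_mem {U : Set (Finset V)} {c : Finset V → R} {τ : Finset V} (h : τ ∈ U) :
    cut U c τ = c τ := if_pos h

theorem cut_of_not {U : Set (Finset V)} {c : Finset V → R} {τ : Finset V} (h : τ ∉ U) :
    cut U c τ = 0 := if_neg h

theorem bd_cut_bd (he : Function.Injective e) {U : Set (Finset V)} (hU : Cvx U)
    {c : Finset V → R} (hc : ∀ τ, τ ∉ U → c τ = 0) {τ : Finset V} (hτ : τ ∈ U) :
    bd e (cut U (bd e c)) τ = 0 := by
  rw [← bd_bd he c τ]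
  refine bd_congr fun v _ => ?_
  by_cases h : insert v τ ∈ U
  · rw [cut_of_mem h]
  · rw [cut_of_not h]
    symm
    refine bd_zero fun w _ => hc _ fun h2 => h ?_
    exact hU τ _ _ (Finset.subset_insert _ _) (Finset.subset_insert _ _) hτ h2

/-- `A` is closed under faces in `U` -/
def Low (A U : Set (Finset V)) : Prop := ∀ τ σ : Finset V, τ ⊆ σ → σ ∈ A → τ ∈ U → τ ∈ A

theorem bd_low {A U : Set (Finset V)} (hA : Low A U) {c : Finset V → R}
    (hc : ∀ τ, τ ∉ A → c τ = 0) {τ : Finset V} (hτ : τ ∈ U) (hτA : τ ∉ A) : bd e c τ = 0 := by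
  refine bd_zero fun v _ => hc _ fun h => hτA ?_
  exact hA τ _ (Finset.subset_insert _ _) h hτ

theorem Ac.glue (he : Function.Injective e) {A B U : Set (Finset V)} (hU : Cvx U)
    (hAU : A ⊆ U) (hA : Low A U) (hB : ∀ τ, τ ∈ B ↔ τ ∈ U ∧ τ ∉ A) (h1 : Ac R e A) (h2 : Ac R e B) :
    Ac R e U := by
  intro c hc hcb
  have hcB : ∀ τ ∈ B, bd e (cut B c) τ = 0 := by
    intro τ hτ
    rw [← hcb τ ((hB τ).1 hτ).1]
    refine bd_congr fun v _ => ?_
    by_cases h : insert v τ ∈ B
    · rw [cut_of_mem h]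
    · rw [cut_of_not h]
      by_cases h3 : insert v τ ∈ U
      · exfalso
        have h4 : insert v τ ∈ A := by
          by_contra h5
          exact h ((hB _).2 ⟨h3, h5⟩)
        exact ((hB τ).1 hτ).2 (hA τ _ (Finset.subset_insert _ _) h4 ((hB τ).1 hτ).1)
      · exact (hc _ h3).symm
  obtain ⟨b, hb, hbb⟩ := h2 (cut B c) (fun τ h => cut_of_not h) hcB
  have hbU : ∀ τ, τ ∉ U → b τ = 0 := fun τ h => hb τ fun h3 => h ((hB τ).1 h3).1
  obtain ⟨a, ha, hab⟩ := h1 (fun τ => c τ - cut U (bd e b) τ) (fun τ h => by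
      by_cases h3 : τ ∈ U
      · have h4 : τ ∈ B := (hB τ).2 ⟨h3, h⟩
        change c τ - cut U (bd e b) τ = 0
        rw [cut_of_mem h3, hbb τ h4, cut_of_mem h4, sub_self]
      · change c τ - cut U (bd e b) τ = 0
        rw [cut_of_not h3, hc τ h3, sub_self]) (fun τ h => by
      rw [bd_sub, hcb τ (hAU h), bd_cut_bd he hU hbU (hAU h), sub_self])
  refine ⟨fun τ => a τ + b τ, fun τ h => ?_, fun τ h => ?_⟩
  · change a τ + b τ = 0
    rw [ha τ fun h3 => h (hAU h3), hbU τ h, add_zero]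
  · rw [bd_add]
    by_cases h3 : τ ∈ A
    · rw [hab τ h3, cut_of_mem h]
      ring
    · have h4 : τ ∈ B := (hB τ).2 ⟨h, h3⟩
      rw [bd_low hA ha h h3, hbb τ h4, cut_of_mem h4, zero_add]

theorem Ac.quot (he : Function.Injective e) {A B U : Set (Finset V)} (hU : Cvx U)
    (hAU : A ⊆ U) (hA : Low A U) (hB : ∀ τ, τ ∈ B ↔ τ ∈ U ∧ τ ∉ A) (h1 : Ac R e A) (h2 : Ac R e U) :
    Ac R e B := by
  intro c hc hcb
  have hcU : ∀ τ, τ ∉ U → c τ = 0 := fun τ h => hc τ fun h3 => h ((hB τ).1 h3).1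
  obtain ⟨a, ha, hab⟩ := h1 (cut A (bd e c)) (fun τ h => cut_of_not h) (fun τ h => by
    rw [← bd_cut_bd he hU hcU (hAU h)]
    refine bd_congr fun v _ => ?_
    by_cases h3 : insert v τ ∈ A
    · rw [cut_of_mem h3, cut_of_mem (hAU h3)]
    · rw [cut_of_not h3]
      by_cases h4 : insert v τ ∈ U
      · rw [cut_of_mem h4, hcb _ ((hB _).2 ⟨h4, h3⟩)]
      · rw [cut_of_not h4])
  obtain ⟨b, hb, hbb⟩ := h2 (fun τ => c τ - a τ) (fun τ h => by
    change c τ - a τ = 0
    rw [hcU τ h, ha τ fun h3 => h (hAU h3), sub_self]) (fun τ h => by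
    rw [bd_sub]
    by_cases h3 : τ ∈ A
    · rw [hab τ h3, cut_of_mem h3, sub_self]
    · rw [bd_low hA ha h h3, hcb τ ((hB τ).2 ⟨h, h3⟩), sub_self])
  refine ⟨cut B b, fun τ h => cut_of_not h, fun τ h => ?_⟩
  have h3 := (hB τ).1 h
  have h4 : bd e (cut B b) τ = bd e b τ := by
    refine bd_congr fun v _ => ?_
    by_cases h5 : insert v τ ∈ B
    · rw [cut_of_mem h5]
    · rw [cut_of_not h5]
      symm
      refine hb _ fun h6 => h3.2 ?_
      have h7 : insert v τ ∈ A := by
        by_contra h8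
        exact h5 ((hB _).2 ⟨h6, h8⟩)
      exact hA τ _ (Finset.subset_insert _ _) h7 h3.1
  rw [h4, hbb τ h3.1, ha τ h3.2, sub_zero]

theorem Ac.empty {U : Set (Finset V)} (h : ∀ τ, τ ∉ U) : Ac R e U := fun c hc _ =>
  ⟨0, fun _ _ => rfl, fun τ hτ => absurd hτ (h τ)⟩

theorem Ac.congr {U U' : Set (Finset V)} (h : ∀ τ, τ ∈ U ↔ τ ∈ U') (h1 : Ac R e U) :
    Ac R e U' := by
  have : U = U' := Set.ext h
  rwa [← this]

/-- cones are acyclic -/
theorem Ac.toggle (he : Function.Injective e) {U : Set (Finset V)} (z : V)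
    (hz : ∀ τ : Finset V, z ∉ τ → (τ ∈ U ↔ insert z τ ∈ U)) : Ac R e U := by
  classical
  intro c hc hcb
  refine ⟨fun σ => if z ∈ σ then sgn R e (σ.erase z) z * c (σ.erase z) else 0, fun τ h => ?_,
    fun τ h => ?_⟩
  · beta_reduce
    by_cases h3 : z ∈ τ
    · rw [if_pos h3, hc, mul_zero]
      intro h4
      rw [hz _ (Finset.notMem_erase z τ), Finset.insert_erase h3] at h4
      exact h h4
    · rw [if_neg h3]
  · by_cases h3 : z ∈ τ
    · set ρ := τ.erase z with hρ
      have hzρ : z ∉ ρ := Finset.notMem_erase z τ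
      have hτ : τ = insert z ρ := (Finset.insert_erase h3).symm
      have hρU : ρ ∈ U := by rw [hz ρ hzρ, ← hτ]; exact h
      have h4 := hcb ρ hρU
      unfold bd at h4 ⊢
      have h5 : univ \ ρ = insert z (univ \ τ) := by
        ext v
        simp only [Finset.mem_sdiff, Finset.mem_univ, true_and, Finset.mem_insert, hτ, not_or]
        constructor
        · intro h6
          by_cases h7 : v = z
          · exact Or.inl h7
          · exact Or.inr ⟨h7, h6⟩
        · rintro (h6 | h6)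
          · rw [h6]; exact hzρ
          · exact h6.2
      have hzz : z ∉ univ \ τ := by simp [h3]
      rw [h5, Finset.sum_insert hzz, ← hτ] at h4
      have h6 : ∀ v ∈ univ \ τ, sgn R e τ v *
          (if z ∈ insert v τ then sgn R e ((insert v τ).erase z) z * c ((insert v τ).erase z)
            else 0) = - (sgn R e ρ z * (sgn R e ρ v * c (insert v ρ))) := by
        intro v hv
        have hv' : v ∉ τ := (Finset.mem_sdiff.1 hv).2
        have hvz : v ≠ z := fun h7 => hv' (h7 ▸ h3)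
        have hvρ : v ∉ ρ := fun h7 => hv' (Finset.mem_of_mem_erase h7)
        rw [if_pos (Finset.mem_insert_of_mem h3), Finset.erase_insert_of_ne hvz, ← hρ, hτ]
        have h7 := sgn_comm (R := R) he ρ hzρ hvρ (Ne.symm hvz)
        have h8 := sgn_sq (R := R) (e := e) ρ z
        have h9 := sgn_sq (R := R) (e := e) (insert v ρ) z
        have h10 := sgn_sq (R := R) (e := e) ρ v
        -- multiply `h7` by `sgn ρ z * sgn (insert v ρ) z`
        have h11 : sgn R e (insert z ρ) v * sgn R e (insert v ρ) z =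
            - (sgn R e ρ z * sgn R e ρ v) := by
          calc sgn R e (insert z ρ) v * sgn R e (insert v ρ) z
              = (sgn R e ρ z * sgn R e (insert z ρ) v) * (sgn R e ρ z * sgn R e (insert v ρ) z) := by
                linear_combination (- (sgn R e (insert z ρ) v * sgn R e (insert v ρ) z)) * h8
            _ = - (sgn R e ρ z * sgn R e ρ v) := by
                rw [h7]
                linear_combination (- sgn R e ρ v * sgn R e ρ z) * h9
        linear_combination (c (insert v ρ)) * h11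
      rw [Finset.sum_congr rfl h6, Finset.sum_neg_distrib, ← Finset.mul_sum]
      have h7 := sgn_sq (R := R) (e := e) ρ z
      linear_combination (- sgn R e ρ z) * h4 + c τ * h7
    · unfold bd
      rw [Finset.sum_eq_single z]
      · beta_reduce
        rw [if_pos (Finset.mem_insert_self z τ), Finset.erase_insert h3, ← mul_assoc, sgn_sq,
          one_mul]
      · intro v hv hvz
        beta_reduce
        rw [if_neg, mul_zero]
        rw [Finset.mem_insert, not_or]
        exact ⟨fun h4 => hvz h4.symm, h3⟩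
      · intro h4
        exact absurd (Finset.mem_sdiff.2 ⟨Finset.mem_univ z, h3⟩) h4

/-- the closure lemma -/
theorem Ac.closure (he : Function.Injective e) {U : Set (Finset V)} (hU : Cvx U)
    (cl : Finset V → Finset V) (h1 : ∀ τ, τ ⊆ cl τ) (h2 : ∀ τ σ, τ ⊆ σ → cl τ ⊆ cl σ)
    (h3 : ∀ τ, cl (cl τ) = cl τ) (h4 : ∀ τ ∈ U, cl τ ∈ U)
    (h5 : ∀ S ∈ U, cl S = S → Ac R e {τ | τ ∈ U ∧ τ ⊆ S}) : Ac R e U := by
  classical
  have key : ∀ (N : ℕ) (Q : Finset (Finset V)), Q.card = N →
      (∀ S ∈ Q, ∀ S' ∈ U, cl S' = S' → S' ⊆ S → S' ∈ Q) → Ac R e {τ | τ ∈ U ∧ cl τ ∈ Q} := by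
    intro N
    induction N using Nat.strong_induction_on with
    | _ N ih =>
      intro Q hQN hQ
      have hcvx : ∀ Q : Finset (Finset V), (∀ S ∈ Q, ∀ S' ∈ U, cl S' = S' → S' ⊆ S → S' ∈ Q) →
          Cvx {τ | τ ∈ U ∧ cl τ ∈ Q} := by
        intro Q hQ τ ρ σ hτρ hρσ hτ hσ
        have hρ : ρ ∈ U := hU τ ρ σ hτρ hρσ hτ.1 hσ.1
        exact ⟨hρ, hQ _ hσ.2 _ (h4 ρ hρ) (h3 ρ) (h2 ρ σ hρσ)⟩
      by_cases hne : Q.Nonempty
      · obtain ⟨S, hS, hmax⟩ := Finset.exists_max_image Q Finset.card hne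
        have hQ' : ∀ S1 ∈ Q.erase S, ∀ S' ∈ U, cl S' = S' → S' ⊆ S1 → S' ∈ Q.erase S := by
          intro S1 hS1 S' hS'U hS' hsub
          rw [Finset.mem_erase] at hS1 ⊢
          refine ⟨fun h => hS1.1 ?_, hQ S1 hS1.2 S' hS'U hS' hsub⟩
          rw [h] at hsub
          exact (Finset.eq_of_subset_of_card_le hsub (hmax S1 hS1.2)).symm
        have hcard : (Q.erase S).card < N := by
          rw [← hQN]
          exact Finset.card_erase_lt_of_mem hS
        have hA := ih _ hcard (Q.erase S) rfl hQ'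
        have hfib : Ac R e {τ | τ ∈ U ∧ cl τ = S} := by
          by_cases hSc : S ∈ U ∧ cl S = S
          · let Q2 := Q.filter fun S' => S' ⊂ S
            have hQ2 : ∀ S1 ∈ Q2, ∀ S' ∈ U, cl S' = S' → S' ⊆ S1 → S' ∈ Q2 := by
              intro S1 hS1 S' hS'U hS' hsub
              rw [Finset.mem_filter] at hS1 ⊢
              exact ⟨hQ S1 hS1.1 S' hS'U hS' hsub, lt_of_le_of_lt hsub hS1.2⟩
            have hcard2 : Q2.card < N := by
              rw [← hQN]
              refine Finset.card_lt_card ?_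
              rw [Finset.ssubset_iff_of_subset (Finset.filter_subset _ _)]
              exact ⟨S, hS, fun h => (Finset.mem_filter.1 h).2.ne rfl⟩
            have hA2 := ih _ hcard2 Q2 rfl hQ2
            refine Ac.quot he (U := {τ | τ ∈ U ∧ τ ⊆ S}) ?_ ?_ ?_ ?_ hA2 (h5 S hSc.1 hSc.2)
            · intro τ ρ σ hτρ hρσ hτ hσ
              exact ⟨hU τ ρ σ hτρ hρσ hτ.1 hσ.1, hρσ.trans hσ.2⟩
            · rintro τ ⟨hτ, hτ2⟩
              exact ⟨hτ, (h1 τ).trans (Finset.mem_filter.1 hτ2).2.subset⟩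
            · rintro τ σ hτσ ⟨hσ, hσ2⟩ ⟨hτ, _⟩
              exact ⟨hτ, hQ2 _ hσ2 _ (h4 τ hτ) (h3 τ) (h2 τ σ hτσ)⟩
            · intro τ
              constructor
              · rintro ⟨hτ, hτ2⟩
                refine ⟨⟨hτ, hτ2 ▸ h1 τ⟩, fun h => ?_⟩
                have := (Finset.mem_filter.1 h.2).2
                rw [hτ2] at this
                exact this.ne rfl
              · rintro ⟨⟨hτ, hτ2⟩, hτ3⟩
                refine ⟨hτ, ?_⟩
                by_contra h
                have h6 : cl τ ⊆ S := by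
                  have := h2 τ S hτ2
                  rwa [hSc.2] at this
                have h7 : cl τ ⊂ S := lt_of_le_of_ne h6 h
                exact hτ3 ⟨hτ, Finset.mem_filter.2
                  ⟨hQ S hS _ (h4 τ hτ) (h3 τ) h6, h7⟩⟩
          · refine Ac.empty fun τ hτ => hSc ?_
            obtain ⟨hτ, rfl⟩ := hτ
            exact ⟨h4 τ hτ, h3 τ⟩
        refine Ac.glue he (hcvx Q hQ) (A := {τ | τ ∈ U ∧ cl τ ∈ Q.erase S})
          (B := {τ | τ ∈ U ∧ cl τ = S}) ?_ ?_ ?_ hA hfib
        · rintro τ ⟨hτ, hτ2⟩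
          exact ⟨hτ, Finset.mem_of_mem_erase hτ2⟩
        · rintro τ σ hτσ ⟨hσ, hσ2⟩ ⟨hτ, _⟩
          exact ⟨hτ, hQ' _ hσ2 _ (h4 τ hτ) (h3 τ) (h2 τ σ hτσ)⟩
        · intro τ
          constructor
          · rintro ⟨hτ, hτ2⟩
            refine ⟨⟨hτ, hτ2 ▸ hS⟩, fun h => ?_⟩
            exact (Finset.mem_erase.1 h.2).1 hτ2
          · rintro ⟨⟨hτ, hτ2⟩, hτ3⟩
            refine ⟨hτ, ?_⟩
            by_contra h
            exact hτ3 ⟨hτ, Finset.mem_erase.2 ⟨h, hτ2⟩⟩
      · rw [Finset.not_nonempty_iff_eq_empty] at hne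
        refine Ac.empty fun τ hτ => ?_
        have := hτ.2
        rw [hne] at this
        exact absurd this (Finset.notMem_empty _)
  have h6 := key _ Finset.univ rfl (fun _ _ _ _ _ _ => Finset.mem_univ _)
  refine Ac.congr (fun τ => ?_) h6
  constructor
  · intro h
    exact h.1
  · intro h
    exact ⟨h, Finset.mem_univ _⟩

end Pool.Agent.Q135.CS
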