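import Mathlib

/-!
# The union of a family of small sets without sunflowers

`wbd K m`: a bound for the number of elements of the union of a family of sets with at most `m`
elements which does not contain a sunflower with `K` petals.
-/

set_option autoImplicit false

namespace Pool.Agent.Q135.CS

open Finset

variable {ι : Type} [DecidableEq ι]

/-- a sunflower with `K` nonempty petals and kernel `Y` -/
def IsSun (K : ℕ) (M : Finset (Finset ι)) (Y : Finset ι) : Prop :=
  ∃ f : Fin K → Finset ι, (∀ i, f i ∈ M) ∧ (∀ i, Y ⊆ f i ∧ f i ≠ Y) ∧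
    ∀ i i', i ≠ i' → Disjoint (f i \ Y) (f i' \ Y)

/-- the recursive bound -/
def wbd (K : ℕ) : ℕ → ℕ
  | 0 => 0
  | m + 1 => K * (m + 1) * (1 + wbd K m)

theorem union_bound (K : ℕ) (m : ℕ) : ∀ M : Finset (Finset ι), (∀ A ∈ M, A.card ≤ m) →
    (∀ Y, ¬ IsSun (K + 1) M Y) → (M.biUnion id).card ≤ wbd K m := by
  induction m with
  | zero =>
    intro M hM _
    rw [wbd, Nat.le_zero, Finset.card_eq_zero]
    refine Finset.eq_empty_of_forall_notMem fun x hx => ?_
    obtain ⟨A, hA, hxA⟩ := Finset.mem_biUnion.1 hx
    have h1 : A = ∅ := Finset.card_eq_zero.1 (Nat.le_zero.1 (hM A hA))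
    rw [h1] at hxA
    exact absurd hxA (Finset.notMem_empty x)
  | succ m ih =>
    intro M hM hsun
    -- a maximal disjoint subfamily
    let P : Finset (Finset (Finset ι)) := M.powerset.filter fun D =>
      (∀ A ∈ D, A.Nonempty) ∧ ∀ A ∈ D, ∀ B ∈ D, A ≠ B → Disjoint A B
    have hP : P.Nonempty := ⟨∅, by simp [P]⟩
    obtain ⟨D, hD, hmax⟩ := Finset.exists_max_image P Finset.card hP
    have hD' := Finset.mem_filter.1 hD
    have hDM : D ⊆ M := Finset.mem_powerset.1 hD'.1
    have hDK : D.card ≤ K := by
      by_contra hc
      push Not at hc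
      have h1 : ∃ g : Fin (K + 1) → Finset ι, Function.Injective g ∧ ∀ i, g i ∈ D := by
        have h2 : Fintype.card (Fin (K + 1)) ≤ Fintype.card D := by
          rw [Fintype.card_fin, Fintype.card_coe]
          omega
        obtain ⟨g⟩ := Function.Embedding.nonempty_of_card_le h2
        exact ⟨fun i => (g i).1, fun i j h => g.injective (Subtype.ext h), fun i => (g i).2⟩
      obtain ⟨g, hg, hgD⟩ := h1
      refine hsun ∅ ⟨g, fun i => hDM (hgD i), fun i => ⟨Finset.empty_subset _,
        (hD'.2.1 _ (hgD i)).ne_empty⟩, fun i i' hi => ?_⟩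
      rw [Finset.sdiff_empty, Finset.sdiff_empty]
      exact hD'.2.2 _ (hgD i) _ (hgD i') fun h => hi (hg h)
    set X := D.biUnion id with hX
    have hXc : X.card ≤ K * (m + 1) := by
      refine (Finset.card_biUnion_le).trans ?_
      refine (Finset.sum_le_card_nsmul _ _ (m + 1) fun A hA => hM A (hDM hA)).trans ?_
      rw [smul_eq_mul]
      exact Nat.mul_le_mul_right _ hDK
    have hmeet : ∀ A ∈ M, A.Nonempty → ∃ x ∈ X, x ∈ A := by
      intro A hA hAne
      by_contra hc
      push Not at hc
      have hdisj : ∀ B ∈ D, Disjoint A B := by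
        intro B hB
        rw [Finset.disjoint_left]
        intro x hx hx2
        exact hc x (Finset.mem_biUnion.2 ⟨B, hB, hx2⟩) hx
      have hAD : A ∉ D := by
        intro h
        obtain ⟨x, hx⟩ := hAne
        exact hc x (Finset.mem_biUnion.2 ⟨A, h, hx⟩) hx
      have h2 : insert A D ∈ P := by
        rw [Finset.mem_filter, Finset.mem_powerset]
        refine ⟨Finset.insert_subset hA hDM, ?_, ?_⟩
        · intro B hB
          rcases Finset.mem_insert.1 hB with rfl | hB
          · exact hAne
          · exact hD'.2.1 B hB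
        · intro B hB C hC hBC
          rcases Finset.mem_insert.1 hB with hB1 | hB1
          · rcases Finset.mem_insert.1 hC with hC1 | hC1
            · exact absurd (hB1.trans hC1.symm) hBC
            · rw [hB1]
              exact hdisj C hC1
          · rcases Finset.mem_insert.1 hC with hC1 | hC1
            · rw [hC1]
              exact (hdisj B hB1).symm
            · exact hD'.2.2 B hB1 C hC1 hBC
      have h3 := hmax _ h2
      rw [Finset.card_insert_of_notMem hAD] at h3
      omega
    let N : ι → Finset (Finset ι) := fun x => (M.filter fun A => x ∈ A).image fun A => A.erase x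
    have hN : ∀ x, ((N x).biUnion id).card ≤ wbd K m := by
      intro x
      refine ih (N x) ?_ ?_
      · intro A hA
        obtain ⟨B, hB, rfl⟩ := Finset.mem_image.1 hA
        have hB' := Finset.mem_filter.1 hB
        rw [Finset.card_erase_of_mem hB'.2]
        have := hM B hB'.1
        omega
      · rintro Y ⟨f, hf1, hf2, hf3⟩
        have hxf : ∀ i, x ∉ f i := by
          intro i
          obtain ⟨B, _, hB⟩ := Finset.mem_image.1 (hf1 i)
          rw [← hB]
          exact Finset.notMem_erase x B
        have hxf2 : ∀ i, insert x (f i) ∈ M := by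
          intro i
          obtain ⟨B, hB, hB2⟩ := Finset.mem_image.1 (hf1 i)
          have hB' := Finset.mem_filter.1 hB
          rw [← hB2, Finset.insert_erase hB'.2]
          exact hB'.1
        refine hsun (insert x Y) ⟨fun i => insert x (f i), hxf2, fun i =>
          ⟨Finset.insert_subset_insert _ (hf2 i).1, fun h => (hf2 i).2 ?_⟩, fun i i' hi => ?_⟩
        · have hxY : x ∉ Y := fun h2 => hxf i ((hf2 i).1 h2)
          have := congrArg (fun A => A.erase x) h
          simp only [Finset.erase_insert (hxf i), Finset.erase_insert hxY] at this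
          exact this
        · have key : ∀ i, insert x (f i) \ insert x Y = f i \ Y := by
            intro i
            ext y
            simp only [Finset.mem_sdiff, Finset.mem_insert, not_or]
            constructor
            · rintro ⟨h1 | h1, h2, h3⟩
              · exact absurd h1 h2
              · exact ⟨h1, h3⟩
            · rintro ⟨h1, h2⟩
              exact ⟨Or.inr h1, fun h3 => hxf i (h3 ▸ h1), h2⟩
          rw [key, key]
          exact hf3 i i' hi
    have hsub : M.biUnion id ⊆ X ∪ X.biUnion fun x => (N x).biUnion id := by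
      intro y hy
      obtain ⟨A, hA, hyA⟩ := Finset.mem_biUnion.1 hy
      have hyA' : y ∈ A := hyA
      obtain ⟨x, hx, hxA⟩ := hmeet A hA ⟨y, hyA'⟩
      by_cases hxy : y = x
      · exact Finset.mem_union_left _ (hxy ▸ hx)
      · refine Finset.mem_union_right _ (Finset.mem_biUnion.2 ⟨x, hx, Finset.mem_biUnion.2
          ⟨A.erase x, Finset.mem_image.2 ⟨A, Finset.mem_filter.2 ⟨hA, hxA⟩, rfl⟩, ?_⟩⟩)
        exact Finset.mem_erase.2 ⟨hxy, hyA'⟩
    calc (M.biUnion id).card ≤ (X ∪ X.biUnion fun x => (N x).biUnion id).card :=
          Finset.card_le_card hsub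
      _ ≤ X.card + (X.biUnion fun x => (N x).biUnion id).card := Finset.card_union_le _ _
      _ ≤ X.card + ∑ x ∈ X, ((N x).biUnion id).card := by
          exact Nat.add_le_add_left Finset.card_biUnion_le _
      _ ≤ X.card + X.card * wbd K m := by
          refine Nat.add_le_add_left ?_ _
          refine (Finset.sum_le_card_nsmul _ _ (wbd K m) fun x _ => hN x).trans ?_
          rw [smul_eq_mul]
      _ = X.card * (1 + wbd K m) := by ring
      _ ≤ K * (m + 1) * (1 + wbd K m) := Nat.mul_le_mul_right _ hXc

/-- the closed form -/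
theorem wbd_le (K r : ℕ) : ∀ m, m ≤ r → wbd K m ≤ m * (K * r) ^ m := by
  intro m
  induction m with
  | zero => intro _; simp [wbd]
  | succ m ih =>
    intro hm
    have h1 := ih (by omega)
    rw [wbd]
    have h2 : K * (m + 1) ≤ K * r := Nat.mul_le_mul_left _ hm
    calc K * (m + 1) * (1 + wbd K m) ≤ (K * r) * (1 + m * (K * r) ^ m) :=
          Nat.mul_le_mul h2 (Nat.add_le_add_left h1 _)
      _ = K * r + m * (K * r) ^ (m + 1) := by ring
      _ ≤ (K * r) ^ (m + 1) + m * (K * r) ^ (m + 1) := by
          refine Nat.add_le_add_right ?_ _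
          exact Nat.le_self_pow (by omega) _
      _ = (m + 1) * (K * r) ^ (m + 1) := by ring

end Pool.Agent.Q135.CS
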