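import Pool.Agent.Q135.CS.Ch
import Pool.Agent.Q135.CS.Sun

/-!
# Sets of vertices of the cube which are closed under centres of sunflowers

`IsKer K S z`: `S` contains `K` vertices different from `z` which differ from `z` in pairwise disjoint
sets of coordinates. `Closed K S`: all these `z` lie in `S`.
-/

set_option autoImplicit false

namespace Pool.Agent.Q135.CS

open Finset

variable {ι : Type} [Fintype ι] [DecidableEq ι]

/-- the coordinates in which `v` differs from `z` -/
def diff (z v : ι → Bool) : Finset ι := univ.filter fun j => v j ≠ z j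

omit [DecidableEq ι] in
theorem mem_diff {z v : ι → Bool} {j : ι} : j ∈ diff z v ↔ v j ≠ z j := by
  simp [diff]

omit [DecidableEq ι] in
theorem diff_comm (z v : ι → Bool) : diff z v = diff v z := by
  ext j
  rw [mem_diff, mem_diff]
  exact ne_comm

omit [DecidableEq ι] in
theorem diff_self (z : ι → Bool) : diff z z = ∅ := by
  ext j
  simp [mem_diff]

omit [DecidableEq ι] in
theorem diff_inj {z v v' : ι → Bool} (h : diff z v = diff z v') : v = v' := by
  funext j
  have h1 : v j ≠ z j ↔ v' j ≠ z j := by rw [← mem_diff, ← mem_diff, h]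
  cases hv : v j <;> cases hv' : v' j <;> cases hz : z j <;> simp_all

/-- `z` is the centre of a sunflower with `K` petals in `S` -/
def IsKer (K : ℕ) (S : Finset (ι → Bool)) (z : ι → Bool) : Prop :=
  ∃ f : Fin K → (ι → Bool), (∀ i, f i ∈ S ∧ f i ≠ z) ∧
    ∀ i i', i ≠ i' → Disjoint (diff z (f i)) (diff z (f i'))

/-- closed under centres of sunflowers -/
def Closed (K : ℕ) (S : Finset (ι → Bool)) : Prop := ∀ z, IsKer K S z → z ∈ S

theorem IsKer.mono {K : ℕ} {S S' : Finset (ι → Bool)} {z : ι → Bool} (h : IsKer K S z)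
    (hS : S ⊆ S') : IsKer K S' z := by
  obtain ⟨f, h1, h2⟩ := h
  exact ⟨f, fun i => ⟨hS (h1 i).1, (h1 i).2⟩, h2⟩

theorem IsKer.const {K : ℕ} (hK : 2 ≤ K) {S : Finset (ι → Bool)} {z : ι → Bool} (h : IsKer K S z)
    {j : ι} {a : Bool} (hS : ∀ v ∈ S, v j = a) : z j = a := by
  obtain ⟨f, h1, h2⟩ := h
  by_contra hc
  have h3 : (⟨0, by omega⟩ : Fin K) ≠ ⟨1, by omega⟩ := by
    intro h
    have := congrArg Fin.val h
    simp at this
  have h4 := h2 _ _ h3
  rw [Finset.disjoint_left] at h4
  refine h4 (a := j) ?_ ?_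
  · rw [mem_diff, hS _ (h1 _).1]
    exact fun h => hc h.symm
  · rw [mem_diff, hS _ (h1 _).1]
    exact fun h => hc h.symm

theorem Closed.filter {K : ℕ} (hK : 2 ≤ K) {S : Finset (ι → Bool)} (h : Closed K S) (j : ι)
    (a : Bool) : Closed K (S.filter fun v => v j = a) := by
  intro z hz
  rw [Finset.mem_filter]
  exact ⟨h z (hz.mono (Finset.filter_subset _ _)), hz.const hK fun v hv => (Finset.mem_filter.1 hv).2⟩

theorem closed_univ (K : ℕ) : Closed K (univ : Finset (ι → Bool)) := fun _ _ => Finset.mem_univ _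

/-- diameter at most `r` -/
def Small (r : ℕ) (S : Finset (ι → Bool)) : Prop := ∀ v ∈ S, ∀ w ∈ S, (diff v w).card ≤ r

theorem IsKer.dist {r K : ℕ} (hK : 2 * r + 2 ≤ K) {S : Finset (ι → Bool)} (hS : Small r S)
    {z : ι → Bool} (h : IsKer K S z) {v : ι → Bool} (hv : v ∈ S) : (diff z v).card ≤ r := by
  obtain ⟨f, h1, h2⟩ := h
  by_cases hex : ∃ i, Disjoint (diff z (f i)) (diff z v)
  · obtain ⟨i, hi⟩ := hex
    have h3 : diff z (f i) ∪ diff z v ⊆ diff (f i) v := by
      intro j hj
      rw [mem_diff]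
      rcases Finset.mem_union.1 hj with hj | hj
      · have h4 : j ∉ diff z v := Finset.disjoint_left.1 hi hj
        rw [mem_diff, not_not] at h4
        rw [mem_diff] at hj
        rw [h4]
        exact fun h => hj h.symm
      · have h4 : j ∉ diff z (f i) := Finset.disjoint_right.1 hi hj
        rw [mem_diff, not_not] at h4
        rw [mem_diff] at hj
        rw [h4]
        exact hj
    have h4 := Finset.card_le_card h3
    rw [Finset.card_union_of_disjoint hi] at h4
    have h5 := hS _ (h1 i).1 v hv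
    omega
  · exfalso
    push Not at hex
    have h3 : ∀ i, ∃ j, j ∈ diff z (f i) ∧ j ∈ diff z v := fun i => Finset.not_disjoint_iff.1 (hex i)
    choose g hg1 hg2 using h3
    have hginj : Function.Injective g := by
      intro i i' hii
      by_contra hne
      have := Finset.disjoint_left.1 (h2 i i' hne) (hg1 i)
      rw [hii] at this
      exact this (hg1 i')
    have h4 : K ≤ (diff z v).card := by
      have h5 : (univ.image g).card = K := by
        rw [Finset.card_image_of_injective _ hginj, Finset.card_univ, Fintype.card_fin]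
      rw [← h5]
      refine Finset.card_le_card fun j hj => ?_
      obtain ⟨i, _, rfl⟩ := Finset.mem_image.1 hj
      exact hg2 i
    let i0 : Fin K := ⟨0, by omega⟩
    let i1 : Fin K := ⟨1, by omega⟩
    have h01 : i0 ≠ i1 := by
      intro h
      have := congrArg Fin.val h
      simp [i0, i1] at this
    have h6 : diff z v ⊆ diff (f i0) v ∪ diff z (f i0) := by
      intro j hj
      rw [Finset.mem_union, mem_diff, mem_diff]
      rw [mem_diff] at hj
      by_cases h7 : f i0 j = z j
      · left
        rw [h7]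
        exact hj
      · exact Or.inr h7
    have h7 := (Finset.card_le_card h6).trans (Finset.card_union_le _ _)
    have h8 := hS _ (h1 i0).1 v hv
    have h9 : diff z (f i0) ⊆ diff (f i0) (f i1) := by
      intro j hj
      have h10 := Finset.disjoint_left.1 (h2 i0 i1 h01) hj
      rw [mem_diff, not_not] at h10
      rw [mem_diff] at hj ⊢
      rw [h10]
      exact fun h => hj h.symm
    have h10 := Finset.card_le_card h9
    have h11 := hS _ (h1 i0).1 _ (h1 i1).1
    omega

open Classical in
/-- the smallest closed set which contains `τ` -/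
noncomputable def cl (K : ℕ) (τ : Finset (ι → Bool)) : Finset (ι → Bool) :=
  univ.filter fun v => ∀ S, Closed K S → τ ⊆ S → v ∈ S

theorem mem_cl {K : ℕ} {τ : Finset (ι → Bool)} {v : ι → Bool} :
    v ∈ cl K τ ↔ ∀ S, Closed K S → τ ⊆ S → v ∈ S := by
  simp [cl]

theorem subset_cl (K : ℕ) (τ : Finset (ι → Bool)) : τ ⊆ cl K τ := fun _ hv =>
  mem_cl.2 fun _ _ h => h hv

theorem cl_subset {K : ℕ} {τ S : Finset (ι → Bool)} (hS : Closed K S) (h : τ ⊆ S) : cl K τ ⊆ S :=
  fun _ hv => mem_cl.1 hv S hS h

theorem cl_mono {K : ℕ} {τ σ : Finset (ι → Bool)} (h : τ ⊆ σ) : cl K τ ⊆ cl K σ := fun _ hv =>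
  mem_cl.2 fun S hS h2 => mem_cl.1 hv S hS (h.trans h2)

theorem closed_cl (K : ℕ) (τ : Finset (ι → Bool)) : Closed K (cl K τ) := fun z hz =>
  mem_cl.2 fun S hS h => hS z (hz.mono (cl_subset hS h))

theorem cl_of_closed {K : ℕ} {S : Finset (ι → Bool)} (h : Closed K S) : cl K S = S :=
  Finset.Subset.antisymm (cl_subset h (Finset.Subset.refl _)) (subset_cl K S)

theorem cl_const {K : ℕ} (hK : 2 ≤ K) {τ : Finset (ι → Bool)} {j : ι} {a : Bool}
    (h : ∀ v ∈ τ, v j = a) : ∀ v ∈ cl K τ, v j = a := by
  intro v hv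
  have h1 := cl_subset ((closed_univ K).filter hK j a) (τ := τ) fun w hw =>
    Finset.mem_filter.2 ⟨Finset.mem_univ _, h w hw⟩
  exact (Finset.mem_filter.1 (h1 hv)).2

theorem small_cl {r K : ℕ} (hK : 2 * r + 2 ≤ K) {τ : Finset (ι → Bool)} (hτ : Small r τ) :
    Small r (cl K τ) := by
  classical
  let P : Finset (Finset (ι → Bool)) := univ.filter fun S => τ ⊆ S ∧ S ⊆ cl K τ ∧ Small r S
  have hP : P.Nonempty := ⟨τ, Finset.mem_filter.2 ⟨Finset.mem_univ _, Finset.Subset.refl _,
    subset_cl K τ, hτ⟩⟩
  obtain ⟨S, hS, hmax⟩ := Finset.exists_max_image P Finset.card hP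
  obtain ⟨_, hτS, hScl, hSs⟩ := Finset.mem_filter.1 hS
  have hclosed : Closed K S := by
    intro z hz
    by_contra hzS
    have h1 : insert z S ∈ P := by
      refine Finset.mem_filter.2 ⟨Finset.mem_univ _, hτS.trans (Finset.subset_insert _ _),
        Finset.insert_subset (closed_cl K τ z (hz.mono hScl)) hScl, ?_⟩
      intro v hv w hw
      rcases Finset.mem_insert.1 hv with hv1 | hv1
      · rcases Finset.mem_insert.1 hw with hw1 | hw1
        · rw [hv1, hw1, diff_self]
          simp
        · rw [hv1]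
          exact hz.dist hK hSs hw1
      · rcases Finset.mem_insert.1 hw with hw1 | hw1
        · rw [hw1, diff_comm]
          exact hz.dist hK hSs hv1
        · exact hSs v hv1 w hw1
    have h2 := hmax _ h1
    rw [Finset.card_insert_of_notMem hzS] at h2
    omega
  intro v hv w hw
  exact hSs v (cl_subset hclosed hτS hv) w (cl_subset hclosed hτS hw)

/-- the members which differ from `z` in minimal sets of coordinates -/
def Mn (z : ι → Bool) (T : Finset (ι → Bool)) : Finset (ι → Bool) :=
  T.filter fun v => ∀ v' ∈ T, diff z v' ⊆ diff z v → v' = v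

/-- the coordinates which occur in minimal sets -/
def Un (z : ι → Bool) (T : Finset (ι → Bool)) : Finset ι := (Mn z T).biUnion (diff z)

theorem exists_mn (z : ι → Bool) {T : Finset (ι → Bool)} (hT : T.Nonempty) :
    ∃ v, v ∈ Mn z T := by
  obtain ⟨v, hv, hmin⟩ := Finset.exists_min_image T (fun v => (diff z v).card) hT
  refine ⟨v, Finset.mem_filter.2 ⟨hv, fun v' hv' h => ?_⟩⟩
  exact diff_inj (Finset.eq_of_subset_of_card_le h (hmin v' hv'))

theorem un_bound {K r : ℕ} {z : ι → Bool} {T : Finset (ι → Bool)} (hT : Closed (K + 1) T)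
    (hr : ∀ v ∈ T, (diff z v).card ≤ r) : (Un z T).card ≤ wbd K r := by
  classical
  have h1 : Un z T = ((Mn z T).image (diff z)).biUnion id := by
    rw [Finset.image_biUnion]
    rfl
  rw [h1]
  refine union_bound K r _ ?_ ?_
  · intro A hA
    obtain ⟨v, hv, rfl⟩ := Finset.mem_image.1 hA
    exact hr v (Finset.mem_filter.1 hv).1
  · rintro Y ⟨f, hf1, hf2, hf3⟩
    have h2 : ∀ i, ∃ v, v ∈ Mn z T ∧ diff z v = f i := fun i => Finset.mem_image.1 (hf1 i)
    choose g hg1 hg2 using h2
    let z' : ι → Bool := fun j => if j ∈ Y then !(z j) else z j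
    have hzz' : diff z z' = Y := by
      ext j
      rw [mem_diff]
      by_cases hj : j ∈ Y
      · simp [z', hj]
      · simp [z', hj]
    have h3 : ∀ i, diff z' (g i) = f i \ Y := by
      intro i
      ext j
      rw [Finset.mem_sdiff, ← hg2 i, mem_diff, mem_diff]
      by_cases hj : j ∈ Y
      · have h4 : j ∈ diff z (g i) := by rw [hg2 i]; exact (hf2 i).1 hj
        rw [mem_diff] at h4
        simp only [z', if_pos hj]
        constructor
        · intro h5
          exfalso
          cases hz : z j <;> cases hg : g i j <;> simp_all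
        · rintro ⟨_, h6⟩
          exact absurd hj h6
      · simp only [z', if_neg hj]
        exact ⟨fun h5 => ⟨h5, hj⟩, fun h5 => h5.1⟩
    have hker : IsKer (K + 1) T z' := by
      refine ⟨g, fun i => ⟨(Finset.mem_filter.1 (hg1 i)).1, fun h4 => (hf2 i).2 ?_⟩,
        fun i i' hi => ?_⟩
      · rw [← hg2 i, h4, hzz']
      · rw [h3, h3]
        exact hf3 i i' hi
    have hz'T := hT z' hker
    have h4 := (Finset.mem_filter.1 (hg1 0)).2 z' hz'T (by rw [hzz', hg2 0]; exact (hf2 0).1)
    refine (hf2 0).2 ?_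
    rw [← hg2 0, ← h4, hzz']

theorem un_mono {z : ι → Bool} {T : Finset (ι → Bool)} (i : ι) :
    Un z (T.filter fun v => v i = z i) ⊆ Un z T := by
  refine Finset.biUnion_subset_biUnion_of_subset_left _ fun v hv => ?_
  rw [Mn, Finset.mem_filter, Finset.mem_filter] at hv
  refine Finset.mem_filter.2 ⟨hv.1.1, fun v' hv' h => hv.2 v' (Finset.mem_filter.2 ⟨hv', ?_⟩) h⟩
  by_contra hc
  have h1 : i ∈ diff z v := h (mem_diff.2 hc)
  exact mem_diff.1 h1 hv.1.2

end Pool.Agent.Q135.CS
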