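import Pool.Agent.Q135.CS.Cub

/-!
# Acyclicity

`Fam z T C D`: the subsets of `T` which agree with `z` in some coordinate in `C`, or differ from `z`
throughout in some coordinate in `D`. It is acyclic if `T` is closed and `C` is large.
-/

set_option autoImplicit false

namespace Pool.Agent.Q135.CS

open Finset

variable {ι R : Type} [Fintype ι] [DecidableEq ι] [CommRing R] {e : (ι → Bool) → ℕ}

/-- the subsets of `T` in a half cube -/
def Fam (z : ι → Bool) (T : Finset (ι → Bool)) (C D : Finset ι) : Set (Finset (ι → Bool)) :=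
  {τ | τ ⊆ T ∧ ((∃ i ∈ C, ∀ v ∈ τ, v i = z i) ∨ ∃ i ∈ D, ∀ v ∈ τ, v i = !(z i))}

theorem fam_cvx (z : ι → Bool) (T : Finset (ι → Bool)) (C D : Finset ι) : Cvx (Fam z T C D) := by
  intro τ ρ σ _ h2 _ h4
  refine ⟨h2.trans h4.1, ?_⟩
  rcases h4.2 with ⟨i, hi, h⟩ | ⟨i, hi, h⟩
  · exact Or.inl ⟨i, hi, fun v hv => h v (h2 hv)⟩
  · exact Or.inr ⟨i, hi, fun v hv => h v (h2 hv)⟩

theorem fam_low {z : ι → Bool} {T T' : Finset (ι → Bool)} {C D : Finset ι}
    (U : Set (Finset (ι → Bool))) (hT : T' ⊆ T) : Low (Fam z T' C D) U := by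
  intro τ σ h1 h2 _
  refine ⟨h1.trans h2.1, ?_⟩
  rcases h2.2 with ⟨i, hi, h⟩ | ⟨i, hi, h⟩
  · exact Or.inl ⟨i, hi, fun v hv => h v (h1 hv)⟩
  · exact Or.inr ⟨i, hi, fun v hv => h v (h1 hv)⟩

theorem full_cvx (T : Finset (ι → Bool)) : Cvx {τ | τ ⊆ T} := by
  intro τ ρ σ _ h2 _ h4
  exact h2.trans h4

theorem full_ac (he : Function.Injective e) {T : Finset (ι → Bool)} (hT : T.Nonempty) :
    Ac R e {τ | τ ⊆ T} := by
  obtain ⟨z, hz⟩ := hT
  refine Ac.toggle he z fun τ _ => ?_
  constructor
  · intro h
    exact Finset.insert_subset hz h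
  · intro h
    exact (Finset.subset_insert z τ).trans h

/-- adding one half cube; `a i` is the value of the coordinate -/
theorem add_half (he : Function.Injective e) {z : ι → Bool} {T : Finset (ι → Bool)}
    {C D C' D' : Finset ι} {i : ι} {a : Bool}
    (h1 : Ac R e (Fam z T C D))
    (hC : C.Nonempty)
    (hfam : ∀ τ : Finset (ι → Bool), τ ∈ Fam z T C' D' ↔
      τ ∈ Fam z T C D ∨ (τ ⊆ T ∧ ∀ v ∈ τ, v i = a))
    (h2 : (T.filter fun v => v i = a).Nonempty → Ac R e (Fam z (T.filter fun v => v i = a) C D)) :
    Ac R e (Fam z T C' D') := by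
  have hsub : ∀ τ : Finset (ι → Bool), (τ ⊆ T.filter fun v => v i = a) ↔
      τ ⊆ T ∧ ∀ v ∈ τ, v i = a := by
    intro τ
    constructor
    · intro h
      exact ⟨h.trans (Finset.filter_subset _ _), fun v hv => (Finset.mem_filter.1 (h hv)).2⟩
    · rintro ⟨h, h'⟩ v hv
      exact Finset.mem_filter.2 ⟨h hv, h' v hv⟩
  have hB : Ac R e {τ | τ ⊆ (T.filter fun v => v i = a) ∧
      τ ∉ Fam z (T.filter fun v => v i = a) C D} := by
    by_cases hne : (T.filter fun v => v i = a).Nonempty
    · exact Ac.quot he (full_cvx (T.filter fun v => v i = a)) (fun τ hτ => hτ.1)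
        (fam_low _ (Finset.Subset.refl _)) (fun τ => Iff.rfl) (h2 hne) (full_ac he hne)
    · refine Ac.empty fun τ hτ => hτ.2 ?_
      rw [Finset.not_nonempty_iff_eq_empty] at hne
      have h3 : τ = ∅ := by
        have := hτ.1
        rw [hne] at this
        exact Finset.subset_empty.1 this
      obtain ⟨j, hj⟩ := hC
      refine ⟨hτ.1, Or.inl ⟨j, hj, ?_⟩⟩
      rw [h3]
      intro v hv
      exact absurd hv (Finset.notMem_empty v)
  refine Ac.glue he (fam_cvx z T C' D') ?_ (fam_low _ (Finset.Subset.refl _)) ?_ h1 hB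
  · intro τ hτ
    exact (hfam τ).2 (Or.inl hτ)
  · intro τ
    rw [hfam]
    constructor
    · rintro ⟨h3, h4⟩
      rw [hsub] at h3
      refine ⟨Or.inr h3, fun h5 => h4 ⟨(hsub τ).2 h3, h5.2⟩⟩
    · rintro ⟨h3 | h3, h4⟩
      · exact absurd h3 h4
      · exact ⟨(hsub τ).2 h3, fun h5 => h4 ⟨h3.1, h5.2⟩⟩

/-- **Acyclicity of the families of subsets in half cubes.** -/
theorem fam_ac (he : Function.Injective e) {K r : ℕ} (hK : 1 ≤ K) (z : ι → Bool) :
    ∀ (N : ℕ) (T : Finset (ι → Bool)), T.card = N → T.Nonempty → Closed (K + 1) T →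
      (∀ v ∈ T, (diff z v).card ≤ r) → ∀ (H C D : Finset ι) (m : ℕ),
      (∀ v ∈ T, H ⊆ diff z v) → r ≤ H.card + m → m * wbd K r < (C \ Un z T).card →
      Ac R e (Fam z T C D) := by
  intro N
  induction N using Nat.strong_induction_on with
  | _ N ih =>
    intro T hTN hTne hTc hTr H C D m hH hm hC
    obtain ⟨z', hz'⟩ := exists_mn z hTne
    have hz'T : z' ∈ T := (Finset.mem_filter.1 hz').1
    set Y := diff z z' with hY
    have hYU : Y ⊆ Un z T := fun j hj => Finset.mem_biUnion.2 ⟨z', hz', hj⟩
    have hCne : (C \ Y).Nonempty := by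
      have h1 : (C \ Un z T).Nonempty := by
        rw [← Finset.card_pos]
        omega
      obtain ⟨j, hj⟩ := h1
      rw [Finset.mem_sdiff] at hj
      exact ⟨j, Finset.mem_sdiff.2 ⟨hj.1, fun h => hj.2 (hYU h)⟩⟩
    -- the half cubes which contain `z'`
    have step0 : Ac R e (Fam z T (C \ Y) (D ∩ Y)) := by
      refine Ac.toggle he z' fun τ _ => ?_
      constructor
      · rintro ⟨h1, h2⟩
        refine ⟨Finset.insert_subset hz'T h1, ?_⟩
        rcases h2 with ⟨i, hi, h⟩ | ⟨i, hi, h⟩
        · left
          refine ⟨i, hi, fun v hv => ?_⟩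
          rcases Finset.mem_insert.1 hv with rfl | hv
          · have := (Finset.mem_sdiff.1 hi).2
            rw [hY, mem_diff, not_not] at this
            exact this
          · exact h v hv
        · right
          refine ⟨i, hi, fun v hv => ?_⟩
          rcases Finset.mem_insert.1 hv with rfl | hv
          · have := (Finset.mem_inter.1 hi).2
            rw [hY, mem_diff] at this
            cases hz1 : z i <;> cases hz2 : v i <;> simp_all
          · exact h v hv
      · rintro ⟨h1, h2⟩
        refine ⟨(Finset.subset_insert z' τ).trans h1, ?_⟩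
        rcases h2 with ⟨i, hi, h⟩ | ⟨i, hi, h⟩
        · exact Or.inl ⟨i, hi, fun v hv => h v (Finset.mem_insert_of_mem hv)⟩
        · exact Or.inr ⟨i, hi, fun v hv => h v (Finset.mem_insert_of_mem hv)⟩
    -- the half cubes of coordinates in `C ∩ Y`
    have step1 : ∀ E : Finset ι, E ⊆ C ∩ Y → Ac R e (Fam z T ((C \ Y) ∪ E) (D ∩ Y)) := by
      intro E
      induction E using Finset.induction_on with
      | empty =>
        intro _
        rw [Finset.union_empty]
        exact step0
      | insert i E hiE ihE =>
        intro hE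
        have hiY : i ∈ Y := (Finset.mem_inter.1 (hE (Finset.mem_insert_self i E))).2
        have h1 := ihE ((Finset.subset_insert i E).trans hE)
        refine add_half he (i := i) (a := z i) h1 (hCne.mono Finset.subset_union_left) ?_ ?_
        · intro τ
          constructor
          · rintro ⟨h2, h3⟩
            rcases h3 with ⟨j, hj, h⟩ | ⟨j, hj, h⟩
            · by_cases hji : j = i
              · subst hji
                exact Or.inr ⟨h2, h⟩
              · left
                refine ⟨h2, Or.inl ⟨j, ?_, h⟩⟩
                rw [Finset.mem_union, Finset.mem_insert] at hj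
                rcases hj with hj | hj | hj
                · exact Finset.mem_union_left _ hj
                · exact absurd hj hji
                · exact Finset.mem_union_right _ hj
            · exact Or.inl ⟨h2, Or.inr ⟨j, hj, h⟩⟩
          · rintro (⟨h2, h3⟩ | ⟨h2, h3⟩)
            · refine ⟨h2, ?_⟩
              rcases h3 with ⟨j, hj, h⟩ | ⟨j, hj, h⟩
              · refine Or.inl ⟨j, ?_, h⟩
                rw [Finset.mem_union, Finset.mem_insert]
                rcases Finset.mem_union.1 hj with hj | hj
                · exact Or.inl hj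
                · exact Or.inr (Or.inr hj)
              · exact Or.inr ⟨j, hj, h⟩
            · exact ⟨h2, Or.inl ⟨i, by simp, h3⟩⟩
        · intro hne
          have hss : (T.filter fun v => v i = z i) ⊂ T := by
            rw [Finset.ssubset_iff_of_subset (Finset.filter_subset _ _)]
            refine ⟨z', hz'T, fun h => ?_⟩
            rw [hY, mem_diff] at hiY
            exact hiY (Finset.mem_filter.1 h).2
          refine ih _ (hTN ▸ Finset.card_lt_card hss) _ rfl hne
            (hTc.filter (by omega) i (z i))
            (fun v hv => hTr v (Finset.mem_filter.1 hv).1) H _ _ m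
            (fun v hv => hH v (Finset.mem_filter.1 hv).1) hm ?_
          refine lt_of_lt_of_le hC (Finset.card_le_card fun j hj => ?_)
          rw [Finset.mem_sdiff] at hj ⊢
          refine ⟨Finset.mem_union_left _ (Finset.mem_sdiff.2 ⟨hj.1, fun h => hj.2 (hYU h)⟩),
            fun h => hj.2 (un_mono i h)⟩
    have hCY : (C \ Y) ∪ (C ∩ Y) = C := Finset.sdiff_union_inter C Y
    have step1' : Ac R e (Fam z T C (D ∩ Y)) := by
      have := step1 (C ∩ Y) (Finset.Subset.refl _)
      rwa [hCY] at this
    have hCne' : C.Nonempty := hCne.mono Finset.sdiff_subset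
    -- the half cubes of coordinates in `D \ Y`
    have step2 : ∀ E : Finset ι, E ⊆ D \ Y → Ac R e (Fam z T C ((D ∩ Y) ∪ E)) := by
      intro E
      induction E using Finset.induction_on with
      | empty =>
        intro _
        rw [Finset.union_empty]
        exact step1'
      | insert i E hiE ihE =>
        intro hE
        have hiY : i ∉ Y := (Finset.mem_sdiff.1 (hE (Finset.mem_insert_self i E))).2
        have h1 := ihE ((Finset.subset_insert i E).trans hE)
        refine add_half he (i := i) (a := !(z i)) h1 hCne' ?_ ?_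
        · intro τ
          constructor
          · rintro ⟨h2, h3⟩
            rcases h3 with ⟨j, hj, h⟩ | ⟨j, hj, h⟩
            · exact Or.inl ⟨h2, Or.inl ⟨j, hj, h⟩⟩
            · by_cases hji : j = i
              · subst hji
                exact Or.inr ⟨h2, h⟩
              · left
                refine ⟨h2, Or.inr ⟨j, ?_, h⟩⟩
                rw [Finset.mem_union, Finset.mem_insert] at hj
                rcases hj with hj | hj | hj
                · exact Finset.mem_union_left _ hj
                · exact absurd hj hji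
                · exact Finset.mem_union_right _ hj
          · rintro (⟨h2, h3⟩ | ⟨h2, h3⟩)
            · refine ⟨h2, ?_⟩
              rcases h3 with ⟨j, hj, h⟩ | ⟨j, hj, h⟩
              · exact Or.inl ⟨j, hj, h⟩
              · refine Or.inr ⟨j, ?_, h⟩
                rw [Finset.mem_union, Finset.mem_insert]
                rcases Finset.mem_union.1 hj with hj | hj
                · exact Or.inl hj
                · exact Or.inr (Or.inr hj)
            · exact ⟨h2, Or.inr ⟨i, by simp, h3⟩⟩
        · intro hne
          have hz'i : z' i = z i := by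
            rw [hY, mem_diff, not_not] at hiY
            exact hiY
          have hss : (T.filter fun v => v i = !(z i)) ⊂ T := by
            rw [Finset.ssubset_iff_of_subset (Finset.filter_subset _ _)]
            refine ⟨z', hz'T, fun h => ?_⟩
            have h4 := (Finset.mem_filter.1 h).2
            rw [hz'i] at h4
            exact absurd h4 (by cases z i <;> simp)
          have hiH : i ∉ H := fun h => hiY (hH z' hz'T h)
          have hH' : ∀ v ∈ (T.filter fun v => v i = !(z i)), insert i H ⊆ diff z v := by
            intro v hv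
            have h4 := Finset.mem_filter.1 hv
            refine Finset.insert_subset ?_ (hH v h4.1)
            rw [mem_diff, h4.2]
            cases hzi : z i <;> simp
          have hcH : (insert i H).card = H.card + 1 := Finset.card_insert_of_notMem hiH
          have hm1 : 1 ≤ m := by
            obtain ⟨v, hv⟩ := hne
            have h4 := (Finset.card_le_card (hH' v hv)).trans
              (hTr v (Finset.mem_filter.1 hv).1)
            omega
          have hcl := hTc.filter (by omega) i (!(z i))
          have hr' : ∀ v ∈ (T.filter fun v => v i = !(z i)), (diff z v).card ≤ r :=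
            fun v hv => hTr v (Finset.mem_filter.1 hv).1
          refine ih _ (hTN ▸ Finset.card_lt_card hss) _ rfl hne hcl hr' (insert i H) _ _ (m - 1)
            hH' (by omega) ?_
          have h5 := un_bound hcl hr'
          have h6 : C.card ≤ (C \ Un z (T.filter fun v => v i = !(z i))).card +
              (Un z (T.filter fun v => v i = !(z i))).card := by
            exact Finset.card_le_card_sdiff_add_card
          have h7 : (C \ Un z T).card ≤ C.card := Finset.card_le_card Finset.sdiff_subset
          obtain ⟨m', rfl⟩ : ∃ m', m = m' + 1 := ⟨m - 1, by omega⟩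
          rw [Nat.add_sub_cancel]
          rw [Nat.add_mul, one_mul] at hC
          omega
    have := step2 (D \ Y) (Finset.Subset.refl _)
    rwa [Finset.union_comm, Finset.sdiff_union_inter] at this

/-- the coordinates in which the members do not all agree -/
def span (τ : Finset (ι → Bool)) : Finset ι :=
  univ.filter fun j => ∃ v ∈ τ, ∃ w ∈ τ, v j ≠ w j

theorem span_mono {τ σ : Finset (ι → Bool)} (h : τ ⊆ σ) : span τ ⊆ span σ := by
  intro j hj
  obtain ⟨_, v, hv, w, hw, hvw⟩ := Finset.mem_filter.1 hj
  exact Finset.mem_filter.2 ⟨Finset.mem_univ _, v, h hv, w, h hw, hvw⟩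

theorem span_cl {K : ℕ} (hK : 2 ≤ K) {τ : Finset (ι → Bool)} (hne : τ.Nonempty) :
    span (cl K τ) = span τ := by
  refine Finset.Subset.antisymm (fun j hj => ?_) (span_mono (subset_cl K τ))
  by_contra hc
  obtain ⟨_, v, hv, w, hw, hvw⟩ := Finset.mem_filter.1 hj
  obtain ⟨u, hu⟩ := hne
  have h1 : ∀ x ∈ τ, x j = u j := by
    intro x hx
    by_contra h
    exact hc (Finset.mem_filter.2 ⟨Finset.mem_univ _, x, hx, u, hu, h⟩)
  have h2 := cl_const hK h1
  exact hvw ((h2 v hv).trans (h2 w hw).symm)

/-- the simplices of diameter at most `r` and cubic dimension `p` -/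
def Spx (ι : Type) [Fintype ι] [DecidableEq ι] (r p : ℕ) : Set (Finset (ι → Bool)) :=
  {τ | τ.Nonempty ∧ Small r τ ∧ (span τ).card = p}

theorem spx_cvx (r p : ℕ) : Cvx (Spx ι r p) := by
  intro τ ρ σ h1 h2 h3 h4
  refine ⟨h3.1.mono h1, fun v hv w hw => h4.2.1 v (h2 hv) w (h2 hw), ?_⟩
  have h5 := Finset.card_le_card (span_mono h1)
  have h6 := Finset.card_le_card (span_mono h2)
  rw [h3.2.2] at h5
  rw [h4.2.2] at h6
  omega

/-- **The columns beyond `s` vanish.** -/
theorem spx_ac (he : Function.Injective e) {r p : ℕ} (hp : r * wbd (2 * r + 1) r < p) :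
    Ac R e (Spx ι r p) := by
  have hK : 2 ≤ 2 * r + 1 + 1 := by omega
  refine Ac.closure he (spx_cvx r p) (cl (2 * r + 1 + 1)) (subset_cl _) (fun τ σ h => cl_mono h)
    (fun τ => cl_of_closed (closed_cl _ τ)) ?_ ?_
  · rintro τ ⟨h1, h2, h3⟩
    exact ⟨h1.mono (subset_cl _ τ), small_cl (by omega) h2, by rw [span_cl hK h1, h3]⟩
  · rintro S ⟨h1, h2, h3⟩ h4
    obtain ⟨z, hz⟩ := h1
    have hSc : Closed (2 * r + 1 + 1) S := by
      rw [← h4]
      exact closed_cl _ S
    have hSr : ∀ v ∈ S, (diff z v).card ≤ r := fun v hv => h2 z hz v hv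
    have hUn : Un z S = ∅ := by
      refine Finset.eq_empty_of_forall_notMem fun j hj => ?_
      obtain ⟨v, hv, hv2⟩ := Finset.mem_biUnion.1 hj
      have h5 := (Finset.mem_filter.1 hv).2 z hz (by rw [diff_self]; exact Finset.empty_subset _)
      rw [← h5, diff_self] at hv2
      exact absurd hv2 (Finset.notMem_empty j)
    have hfam : Ac R e (Fam z S (span S) (span S)) := by
      refine fam_ac he (K := 2 * r + 1) (r := r) (by omega) z _ S rfl ⟨z, hz⟩ hSc hSr ∅ _ _ r
        (fun _ _ => Finset.empty_subset _) (by simp) ?_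
      rw [hUn, Finset.sdiff_empty, h3]
      exact hp
    refine Ac.quot he (full_cvx S) (A := Fam z S (span S) (span S)) (fun τ hτ => hτ.1)
      (fam_low _ (Finset.Subset.refl _)) ?_ hfam (full_ac he ⟨z, hz⟩)
    intro τ
    constructor
    · rintro ⟨⟨h5, h6, h7⟩, h8⟩
      refine ⟨h8, fun h9 => ?_⟩
      have hsp : span τ = span S := by
        refine Finset.eq_of_subset_of_card_le (span_mono h8) ?_
        rw [h7, h3]
      rcases h9.2 with ⟨i, hi, h⟩ | ⟨i, hi, h⟩
      · rw [← hsp] at hi
        obtain ⟨_, v, hv, w, hw, hvw⟩ := Finset.mem_filter.1 hi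
        exact hvw ((h v hv).trans (h w hw).symm)
      · rw [← hsp] at hi
        obtain ⟨_, v, hv, w, hw, hvw⟩ := Finset.mem_filter.1 hi
        exact hvw ((h v hv).trans (h w hw).symm)
    · rintro ⟨h8, h9⟩
      have h8' : τ ⊆ S := h8
      have hspne : (span S).Nonempty := by
        rw [← Finset.card_pos, h3]
        omega
      obtain ⟨j0, hj0⟩ := hspne
      have hne : τ.Nonempty := by
        by_contra hc
        rw [Finset.not_nonempty_iff_eq_empty] at hc
        refine h9 ⟨h8', Or.inl ⟨j0, hj0, ?_⟩⟩
        rw [hc]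
        intro v hv
        exact absurd hv (Finset.notMem_empty v)
      refine ⟨⟨hne, fun v hv w hw => h2 v (h8' hv) w (h8' hw), ?_⟩, h8'⟩
      rw [← h3]
      congr 1
      refine Finset.Subset.antisymm (span_mono h8') fun j hj => ?_
      by_contra hc
      obtain ⟨u, hu⟩ := hne
      have h10 : ∀ x ∈ τ, x j = u j := by
        intro x hx
        by_contra h
        exact hc (Finset.mem_filter.2 ⟨Finset.mem_univ _, x, hx, u, hu, h⟩)
      refine h9 ⟨h8', ?_⟩
      by_cases h11 : u j = z j
      · exact Or.inl ⟨j, hj, fun v hv => (h10 v hv).trans h11⟩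
      · refine Or.inr ⟨j, hj, fun v hv => (h10 v hv).trans ?_⟩
        cases hu' : u j <;> cases hz' : z j <;> simp_all

end Pool.Agent.Q135.CS
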